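import Mathlib

/-!
A Schauder basis of `ℓ² × ℓ⁴` for which no equivalent norm makes the basis monotone and a
projection onto `ℓ²` a contraction.
-/

namespace Q170.Renorm
open Filter Topology ENNReal

variable (𝕜 : Type) [RCLike 𝕜]

instance fact4 : Fact ((1 : ℝ≥0∞) ≤ 4) := ⟨by norm_num⟩

/-- the Hilbert space part -/
abbrev H := lp (fun _ : ℕ => 𝕜) 2
/-- the `ℓ⁴` part -/
abbrev G := lp (fun _ : ℕ => 𝕜) 4
/-- the space -/
abbrev B := H 𝕜 × G 𝕜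

/-- unit vectors of the first summand -/
noncomputable def e (k : ℕ) : B 𝕜 := (lp.single 2 k 1, 0)
/-- unit vectors of the second summand -/
noncomputable def f (k : ℕ) : B 𝕜 := (0, lp.single 4 k 1)

/-- coordinates in the first summand -/
noncomputable def a (k : ℕ) : B 𝕜 →L[𝕜] 𝕜 :=
  (lp.evalCLM 𝕜 (fun _ : ℕ => 𝕜) 2 k).comp (ContinuousLinearMap.fst 𝕜 (H 𝕜) (G 𝕜))
/-- coordinates in the second summand -/
noncomputable def b (k : ℕ) : B 𝕜 →L[𝕜] 𝕜 :=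
  (lp.evalCLM 𝕜 (fun _ : ℕ => 𝕜) 4 k).comp (ContinuousLinearMap.snd 𝕜 (H 𝕜) (G 𝕜))

lemma a_apply (k : ℕ) (z : B 𝕜) : a 𝕜 k z = z.1 k := rfl
lemma b_apply (k : ℕ) (z : B 𝕜) : b 𝕜 k z = z.2 k := rfl

lemma a_e (k l : ℕ) : a 𝕜 k (e 𝕜 l) = if k = l then 1 else 0 := by
  rw [a_apply, e]
  simp only [lp.single_apply, Pi.single_apply]
lemma b_e (k l : ℕ) : b 𝕜 k (e 𝕜 l) = 0 := by
  rw [b_apply, e]; rfl
lemma a_f (k l : ℕ) : a 𝕜 k (f 𝕜 l) = 0 := by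
  rw [a_apply, f]; rfl
lemma b_f (k l : ℕ) : b 𝕜 k (f 𝕜 l) = if k = l then 1 else 0 := by
  rw [b_apply, f]
  simp only [lp.single_apply, Pi.single_apply]

/-- the basis vectors: `e k + f k` and `e k + 2 f k` -/
noncomputable def bas (i : ℕ) : B 𝕜 := e 𝕜 (i / 2) + (if i % 2 = 0 then (1 : 𝕜) else 2) • f 𝕜 (i / 2)

/-- the coordinate functionals -/
noncomputable def crd (i : ℕ) : B 𝕜 →L[𝕜] 𝕜 :=
  if i % 2 = 0 then (2 : 𝕜) • a 𝕜 (i / 2) - b 𝕜 (i / 2) else b 𝕜 (i / 2) - a 𝕜 (i / 2)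

lemma bas_even (k : ℕ) : bas 𝕜 (2 * k) = e 𝕜 k + f 𝕜 k := by
  have h1 : 2 * k / 2 = k := by omega
  have h2 : 2 * k % 2 = 0 := by omega
  rw [bas, h1, h2, if_pos rfl, one_smul]
lemma bas_odd (k : ℕ) : bas 𝕜 (2 * k + 1) = e 𝕜 k + (2 : 𝕜) • f 𝕜 k := by
  have h1 : (2 * k + 1) / 2 = k := by omega
  have h2 : (2 * k + 1) % 2 = 1 := by omega
  rw [bas, h1, h2, if_neg one_ne_zero]
lemma crd_even (k : ℕ) (z : B 𝕜) : crd 𝕜 (2 * k) z = 2 * a 𝕜 k z - b 𝕜 k z := by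
  have h1 : 2 * k / 2 = k := by omega
  have h2 : 2 * k % 2 = 0 := by omega
  rw [crd, h1, h2, if_pos rfl]; rfl
lemma crd_odd (k : ℕ) (z : B 𝕜) : crd 𝕜 (2 * k + 1) z = b 𝕜 k z - a 𝕜 k z := by
  have h1 : (2 * k + 1) / 2 = k := by omega
  have h2 : (2 * k + 1) % 2 = 1 := by omega
  rw [crd, h1, h2, if_neg one_ne_zero]; rfl

lemma ortho (i j : ℕ) : crd 𝕜 i (bas 𝕜 j) = (Pi.single j (1 : 𝕜) : ℕ → 𝕜) i := by
  rw [Pi.single_apply]
  obtain ⟨k, hk | hk⟩ := i.even_or_odd' <;> obtain ⟨l, hl | hl⟩ := j.even_or_odd' <;> subst hk hl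
  · rw [crd_even, bas_even, map_add, map_add, a_e, a_f, b_e, b_f]
    by_cases h : k = l
    · subst h; simp; ring
    · rw [if_neg h, if_neg (by omega)]; simp
  · rw [crd_even, bas_odd, map_add, map_add, map_smul, map_smul, a_e, a_f, b_e, b_f]
    by_cases h : k = l
    · subst h; simp
    · rw [if_neg h, if_neg (by omega)]; simp
  · rw [crd_odd, bas_even, map_add, map_add, a_e, a_f, b_e, b_f]
    by_cases h : k = l
    · subst h; simp
    · rw [if_neg h, if_neg (by omega)]; simp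
  · rw [crd_odd, bas_odd, map_add, map_add, map_smul, map_smul, a_e, a_f, b_e, b_f]
    by_cases h : k = l
    · subst h; simp; ring
    · rw [if_neg h, if_neg (by omega)]; simp

lemma ortho_gen (inst : DecidableEq ℕ) (i j : ℕ) : crd 𝕜 i (bas 𝕜 j) =
    (@Pi.single ℕ (fun _ => 𝕜) _ inst j (1 : 𝕜)) i := by
  have h : inst = instDecidableEqNat := Subsingleton.elim _ _
  subst h
  exact ortho 𝕜 i j

/-- block partial sums -/
lemma sum_even (z : B 𝕜) (k : ℕ) : ∑ i ∈ Finset.range (2 * k), crd 𝕜 i z • bas 𝕜 i =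
    ∑ i ∈ Finset.range k, (a 𝕜 i z • e 𝕜 i + b 𝕜 i z • f 𝕜 i) := by
  induction k with
  | zero => simp
  | succ k ih =>
    rw [show 2 * (k + 1) = 2 * k + 1 + 1 by ring, Finset.sum_range_succ, Finset.sum_range_succ,
      Finset.sum_range_succ, ih, crd_even, crd_odd, bas_even, bas_odd, add_assoc]
    congr 1
    module

lemma tendsto_a (z : B 𝕜) : Tendsto (fun k => a 𝕜 k z) atTop (𝓝 0) := by
  have h := (lp.hasSum_single (E := fun _ : ℕ => 𝕜) (p := 2) (by norm_num) z.1).summable.tendsto_atTop_zero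
  have h2 := h.norm
  rw [norm_zero] at h2
  rw [tendsto_zero_iff_norm_tendsto_zero]
  refine h2.congr fun k => ?_
  rw [lp.norm_single (by norm_num)]
  rfl

lemma tendsto_b (z : B 𝕜) : Tendsto (fun k => b 𝕜 k z) atTop (𝓝 0) := by
  have h := (lp.hasSum_single (E := fun _ : ℕ => 𝕜) (p := 4) (by norm_num) z.2).summable.tendsto_atTop_zero
  have h2 := h.norm
  rw [norm_zero] at h2
  rw [tendsto_zero_iff_norm_tendsto_zero]
  refine h2.congr fun k => ?_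
  rw [lp.norm_single (by norm_num)]
  rfl

lemma smul_e (k : ℕ) (c : 𝕜) : c • e 𝕜 k = (lp.single 2 k c, 0) := by
  rw [e, Prod.smul_mk, smul_zero, ← lp.single_smul, smul_eq_mul, mul_one]
lemma smul_f (k : ℕ) (c : 𝕜) : c • f 𝕜 k = (0, lp.single 4 k c) := by
  rw [f, Prod.smul_mk, smul_zero, ← lp.single_smul, smul_eq_mul, mul_one]

lemma tendsto_block (z : B 𝕜) :
    Tendsto (fun k => ∑ i ∈ Finset.range k, (a 𝕜 i z • e 𝕜 i + b 𝕜 i z • f 𝕜 i)) atTop (𝓝 z) := by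
  have h1 := (lp.hasSum_single (E := fun _ : ℕ => 𝕜) (p := 2) (by norm_num) z.1).tendsto_sum_nat
  have h2 := (lp.hasSum_single (E := fun _ : ℕ => 𝕜) (p := 4) (by norm_num) z.2).tendsto_sum_nat
  refine (h1.prodMk_nhds h2).congr fun k => ?_
  rw [Prod.ext_iff]
  constructor
  · rw [Prod.fst_sum]
    dsimp only
    refine Finset.sum_congr rfl fun i _ => ?_
    rw [smul_e, smul_f, Prod.fst_add, add_zero]; rfl
  · rw [Prod.snd_sum]
    dsimp only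
    refine Finset.sum_congr rfl fun i _ => ?_
    rw [smul_e, smul_f, Prod.snd_add, zero_add]; rfl

lemma norm_e (k : ℕ) : ‖e 𝕜 k‖ = 1 := by
  rw [e, Prod.norm_mk, lp.norm_single (by norm_num)]; simp
lemma norm_f (k : ℕ) : ‖f 𝕜 k‖ = 1 := by
  rw [f, Prod.norm_mk, lp.norm_single (by norm_num)]; simp

lemma tendsto_sum (z : B 𝕜) :
    Tendsto (fun n => ∑ i ∈ Finset.range n, crd 𝕜 i z • bas 𝕜 i) atTop (𝓝 z) := by
  have hdiv : Tendsto (fun n : ℕ => n / 2) atTop atTop :=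
    Nat.tendsto_div_const_atTop two_ne_zero
  have h1 := (tendsto_block 𝕜 z).comp hdiv
  have hr : Tendsto (fun n : ℕ => if n % 2 = 0 then (0 : B 𝕜) else
      crd 𝕜 (2 * (n / 2)) z • bas 𝕜 (2 * (n / 2))) atTop (𝓝 0) := by
    have h2 : Tendsto (fun n : ℕ => 2 * (2 * ‖a 𝕜 (n / 2) z‖ + ‖b 𝕜 (n / 2) z‖)) atTop (𝓝 0) := by
      have h3 := ((tendsto_a 𝕜 z).norm.comp hdiv)
      have h4 := ((tendsto_b 𝕜 z).norm.comp hdiv)
      have h5 := ((h3.const_mul 2).add h4).const_mul 2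
      simpa using h5
    refine squeeze_zero_norm (fun n => ?_) h2
    split_ifs with h
    · rw [norm_zero]; positivity
    · rw [norm_smul, crd_even, bas_even]
      have h3 : ‖2 * a 𝕜 (n / 2) z - b 𝕜 (n / 2) z‖ ≤ 2 * ‖a 𝕜 (n / 2) z‖ + ‖b 𝕜 (n / 2) z‖ := by
        refine le_trans (norm_sub_le _ _) ?_
        rw [norm_mul, RCLike.norm_ofNat]
      have h4 : ‖e 𝕜 (n / 2) + f 𝕜 (n / 2)‖ ≤ 2 := by
        refine le_trans (norm_add_le _ _) ?_
        rw [norm_e, norm_f]; norm_num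
      calc _ ≤ (2 * ‖a 𝕜 (n / 2) z‖ + ‖b 𝕜 (n / 2) z‖) * 2 := by gcongr
        _ = _ := by ring
  have h3 := h1.add hr
  rw [add_zero] at h3
  refine h3.congr fun n => ?_
  simp only [Function.comp_apply]
  rw [← sum_even]
  obtain ⟨k, hk | hk⟩ := n.even_or_odd'
  · subst hk
    rw [if_pos (by omega), add_zero, show 2 * k / 2 = k by omega]
  · subst hk
    rw [if_neg (by omega), show (2 * k + 1) / 2 = k by omega, Finset.sum_range_succ]

/-- the Schauder basis -/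
noncomputable def sb : SchauderBasis 𝕜 (B 𝕜) where
  basis := bas 𝕜
  coord := crd 𝕜
  ortho := by
    intro i j
    exact ortho_gen 𝕜 _ i j
  expansion := by
    intro z
    rw [HasSum, SummationFilter.conditional_filter_eq_map_range, tendsto_map'_iff]
    exact tendsto_sum 𝕜 z

/-- the first summand as a subspace -/
noncomputable def E₀ : Submodule 𝕜 (B 𝕜) := LinearMap.ker (LinearMap.snd 𝕜 (H 𝕜) (G 𝕜))

lemma mem_E₀ (z : B 𝕜) : z ∈ E₀ 𝕜 ↔ z.2 = 0 := by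
  rw [E₀, LinearMap.mem_ker]; rfl

lemma e_mem (k : ℕ) : e 𝕜 k ∈ E₀ 𝕜 := (mem_E₀ 𝕜 _).mpr rfl

/-- greedy choice of signs in an inner product space -/
lemma exists_signs (y : ℕ → H 𝕜) (n : ℕ) : ∃ ε : ℕ → 𝕜, (∀ k, ‖ε k‖ = 1) ∧
    ∑ k ∈ Finset.range n, ‖y k‖ ^ 2 ≤ ‖∑ k ∈ Finset.range n, ε k • y k‖ ^ 2 := by
  induction n with
  | zero => exact ⟨fun _ => 1, fun _ => norm_one, by simp⟩
  | succ n ih =>
    obtain ⟨ε, hε, h⟩ := ih
    set Y := ∑ k ∈ Finset.range n, ε k • y k with hY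
    have hpar := parallelogram_law_with_norm 𝕜 Y (y n)
    have hex : ∃ s : 𝕜, ‖s‖ = 1 ∧ ‖Y‖ ^ 2 + ‖y n‖ ^ 2 ≤ ‖Y + s • y n‖ ^ 2 := by
      rcases le_total (‖Y - y n‖) (‖Y + y n‖) with hle | hle
      · refine ⟨1, norm_one, ?_⟩
        rw [one_smul]
        nlinarith [norm_nonneg (Y - y n)]
      · refine ⟨-1, by rw [norm_neg, norm_one], ?_⟩
        rw [neg_smul, one_smul, ← sub_eq_add_neg]
        nlinarith [norm_nonneg (Y + y n)]
    obtain ⟨s, hs, hs2⟩ := hex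
    refine ⟨fun k => if k < n then ε k else s, fun k => ?_, ?_⟩
    · dsimp only
      split_ifs
      · exact hε k
      · exact hs
    · dsimp only
      rw [Finset.sum_range_succ, Finset.sum_range_succ, if_neg (lt_irrefl n)]
      have h1 : ∑ k ∈ Finset.range n, (if k < n then ε k else s) • y k = Y := by
        rw [hY]
        refine Finset.sum_congr rfl fun k hk => ?_
        rw [if_pos (Finset.mem_range.mp hk)]
      rw [h1]
      linarith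

/-- no renorming makes both contractive -/
theorem main (q : Seminorm 𝕜 (B 𝕜)) (c C : ℝ) (hc : 0 < c)
    (hq : ∀ z, c * ‖z‖ ≤ q z ∧ q z ≤ C * ‖z‖)
    (hmono : ∀ n z, q (∑ i ∈ Finset.range n, (sb 𝕜).coord i z • (sb 𝕜) i) ≤ q z)
    (P : B 𝕜 →ₗ[𝕜] B 𝕜) (hP1 : ∀ z, P z ∈ E₀ 𝕜) (hP2 : ∀ z ∈ E₀ 𝕜, P z = z) :
    ¬ ∀ z, q (P z) ≤ q z := by
  intro hP
  -- lower bound
  have hlow : ∀ k, c ≤ C * ‖P (f 𝕜 k)‖ := by
    intro k
    have h1 : P (bas 𝕜 (2 * k)) = e 𝕜 k + P (f 𝕜 k) := by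
      rw [bas_even, map_add, hP2 _ (e_mem 𝕜 k)]
    have h2 : (sb 𝕜).proj (2 * k + 1) (e 𝕜 k) = (2 : 𝕜) • bas 𝕜 (2 * k) := by
      have h3 : e 𝕜 k = (2 : 𝕜) • (sb 𝕜) (2 * k) - (sb 𝕜) (2 * k + 1) := by
        change e 𝕜 k = (2 : 𝕜) • bas 𝕜 (2 * k) - bas 𝕜 (2 * k + 1)
        rw [bas_even, bas_odd]
        module
      rw [h3, map_sub, map_smul, SchauderBasis.proj_apply_basis_mem,
        SchauderBasis.proj_apply_basis_mem, if_pos (by omega), if_neg (by omega), sub_zero]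
      rfl
    have h4 : ∀ z, q ((sb 𝕜).proj (2 * k + 1) z) ≤ q z := by
      intro z
      rw [SchauderBasis.proj_apply]
      exact hmono _ z
    have h5 := h4 (P (bas 𝕜 (2 * k)))
    rw [h1, map_add, h2] at h5
    have h6 := hP (bas 𝕜 (2 * k))
    rw [h1] at h6
    have h7 : q ((2 : 𝕜) • bas 𝕜 (2 * k)) ≤ q ((2 : 𝕜) • bas 𝕜 (2 * k) +
        (sb 𝕜).proj (2 * k + 1) (P (f 𝕜 k))) + q ((sb 𝕜).proj (2 * k + 1) (P (f 𝕜 k))) := by
      have := map_sub_le_add q ((2 : 𝕜) • bas 𝕜 (2 * k) +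
        (sb 𝕜).proj (2 * k + 1) (P (f 𝕜 k))) ((sb 𝕜).proj (2 * k + 1) (P (f 𝕜 k)))
      rwa [add_sub_cancel_right] at this
    rw [map_smul_eq_mul, RCLike.norm_ofNat] at h7
    have h8 := h4 (P (f 𝕜 k))
    have h9 := (hq (bas 𝕜 (2 * k))).1
    have h10 := (hq (P (f 𝕜 k))).2
    have h11 : 1 ≤ ‖bas 𝕜 (2 * k)‖ := by
      rw [bas_even, e, f, Prod.mk_add_mk, zero_add, add_zero, Prod.norm_mk,
        lp.norm_single (by norm_num)]
      simp
    have h12 : c * 1 ≤ c * ‖bas 𝕜 (2 * k)‖ := by gcongr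
    linarith
  have hC : 0 < C := by
    have h1 := hlow 0
    have h2 := norm_nonneg (P (f 𝕜 0))
    by_contra h
    nlinarith
  have hbd : ∀ z, c * ‖P z‖ ≤ C * ‖z‖ := fun z =>
    le_trans (hq _).1 (le_trans (hP z) (hq z).2)
  -- signs
  obtain ⟨n, hn⟩ := exists_nat_gt ((C / c) ^ 8)
  obtain ⟨ε, hε, hs⟩ := exists_signs 𝕜 (fun k => (P (f 𝕜 k)).1) n
  set F : B 𝕜 := ∑ k ∈ Finset.range n, ε k • f 𝕜 k with hF
  have hF4 : ‖F‖ ^ 4 = n := by
    have h1 : F = (0, ∑ k ∈ Finset.range n, lp.single 4 k (ε k)) := by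
      rw [hF, Prod.ext_iff]
      constructor
      · rw [Prod.fst_sum]
        dsimp only
        refine Finset.sum_eq_zero fun i _ => ?_
        rw [smul_f]
      · rw [Prod.snd_sum]
        dsimp only
        refine Finset.sum_congr rfl fun i _ => ?_
        rw [smul_f]
    have h2 : ‖F‖ = ‖∑ k ∈ Finset.range n, (lp.single 4 k (ε k) : G 𝕜)‖ := by
      rw [h1, Prod.norm_mk]; simp
    have h3 := lp.norm_sum_single (E := fun _ : ℕ => 𝕜) (p := 4) (by norm_num) ε (Finset.range n)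
    rw [← h2] at h3
    have h4 : ((4 : ℝ≥0∞).toReal) = ((4 : ℕ) : ℝ) := by norm_num
    rw [h4, Real.rpow_natCast] at h3
    rw [h3]
    simp [hε]
  have hPF : (P F).1 = ∑ k ∈ Finset.range n, ε k • (P (f 𝕜 k)).1 := by
    rw [hF, map_sum, Prod.fst_sum]
    refine Finset.sum_congr rfl fun k _ => ?_
    rw [map_smul]; rfl
  have hnorm : ∀ z, ‖P z‖ = ‖(P z).1‖ := by
    intro z
    have h1 := (mem_E₀ 𝕜 _).mp (hP1 z)
    rw [Prod.norm_def, h1, norm_zero]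
    exact max_eq_left (norm_nonneg _)
  have h1 : (n : ℝ) * (c / C) ^ 2 ≤ ‖P F‖ ^ 2 := by
    rw [hnorm, hPF]
    refine le_trans ?_ hs
    rw [← nsmul_eq_mul]
    conv_lhs => rw [← Finset.card_range n, ← Finset.sum_const]
    refine Finset.sum_le_sum fun k _ => ?_
    have h2 := hlow k
    rw [hnorm] at h2
    have h3 : c / C ≤ ‖(P (f 𝕜 k)).1‖ := by
      rw [div_le_iff₀ hC]; linarith
    gcongr
  have h2 : ‖P F‖ ≤ C / c * ‖F‖ := by
    have := hbd F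
    rw [div_mul_eq_mul_div, le_div_iff₀ hc]
    linarith
  set K := C / c with hK
  have hK0 : 0 < K := by positivity
  have h3 : (n : ℝ) ≤ K ^ 4 * ‖F‖ ^ 2 := by
    have h4 : ‖P F‖ ^ 2 ≤ (K * ‖F‖) ^ 2 := by gcongr
    have h5 : c / C = 1 / K := by rw [hK]; field_simp
    rw [h5] at h1
    have h6 : (n : ℝ) * (1 / K) ^ 2 ≤ (K * ‖F‖) ^ 2 := le_trans h1 h4
    have h7 : (n : ℝ) = K ^ 2 * ((n : ℝ) * (1 / K) ^ 2) := by field_simp
    rw [h7]
    calc K ^ 2 * ((n : ℝ) * (1 / K) ^ 2) ≤ K ^ 2 * (K * ‖F‖) ^ 2 := by gcongr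
      _ = _ := by ring
  have hn0 : (0 : ℝ) < n := lt_trans (by positivity) hn
  have h4 : 0 < ‖F‖ ^ 2 := by
    have : (0 : ℝ) < ‖F‖ ^ 4 := by rw [hF4]; exact hn0
    by_contra h
    have h5 : ‖F‖ ^ 2 = 0 := le_antisymm (not_lt.mp h) (by positivity)
    have h6 : ‖F‖ ^ 4 = (‖F‖ ^ 2) ^ 2 := by ring
    rw [h6, h5] at this
    simp at this
  rw [← hF4] at h3 hn
  have h5 : ‖F‖ ^ 2 ≤ K ^ 4 := by
    have h6 : ‖F‖ ^ 2 * ‖F‖ ^ 2 ≤ K ^ 4 * ‖F‖ ^ 2 := by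
      calc _ = ‖F‖ ^ 4 := by ring
        _ ≤ _ := h3
    exact le_of_mul_le_mul_right h6 h4
  have h6 : ‖F‖ ^ 4 ≤ K ^ 8 := by
    calc ‖F‖ ^ 4 = (‖F‖ ^ 2) ^ 2 := by ring
      _ ≤ (K ^ 4) ^ 2 := by gcongr
      _ = K ^ 8 := by ring
  linarith

end Q170.Renorm
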